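import Pool.Agent.X194.ST.Main

/-!
MP_c09033_al, Q1: the statement is **false**.  There are Hausdorff topological groups `G, K, H`
(`G` and `K` discrete), an open continuous surjective homomorphism `f₁ : G → K` and a
semitopological isomorphism `f₂ : K → H` such that `f₂ ∘ f₁` is not semitopological.
-/

namespace Pool.Agent.Results.MP_c09033_al.CompositionNotSemitopological

open Pool.Agent.X194.ST

universe v

theorem result :
    ∃ (G K H : Type) (_ : Group G) (_ : Group K) (_ : Group H) (_ : TopologicalSpace G)
      (_ : TopologicalSpace K) (_ : TopologicalSpace H) (_ : IsTopologicalGroup G)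
      (_ : IsTopologicalGroup K) (_ : IsTopologicalGroup H) (_ : DiscreteTopology G)
      (_ : DiscreteTopology K) (_ : T2Space H) (f₁ : G →* K) (f₂ : K →* H),
      Continuous f₁ ∧ IsOpenMap f₁ ∧ Function.Surjective f₁ ∧
      Function.Bijective f₂ ∧ IsSemitopological.{0} f₂ ∧
      ¬ IsSemitopological.{v} (f₂.comp f₁) := by
  refine ⟨GG K0, Disc K0, K0, inferInstance, inferInstance, inferInstance, inferInstance,
    inferInstance, inferInstance, inferInstance, inferInstance, inferInstance, inferInstance,
    inferInstance, inferInstance, pr K0, discId K0, continuous_of_discreteTopology,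
    ?_, ?_, Function.bijective_id, semitop_id cent, not_semitop B0 B0_prop⟩
  · intro U _
    exact isOpen_discrete _
  · intro k
    exact ⟨(⟨1, k⟩ : RegularWreathProduct (Multiplicative (ZMod 2)) K0), rfl⟩

end Pool.Agent.Results.MP_c09033_al.CompositionNotSemitopological
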